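import Pool.Agent.Helper37.KDB.Extra

/-! Project KDB, piece D10. -/

set_option autoImplicit false

namespace KDB.I.D10

open MeasureTheory KDB
open scoped ENNReal

variable (p : Par)

/-- integers with equal residues and close are equal -/
theorem eq_of_emd {d : ℕ} (N : ℕ) (a a' : Fin d → ℤ) (h : Par.emd N a = Par.emd N a')
    (h1 : ∀ i, |(a i : ℝ) - a' i| < N) : a = a' := by
  funext i
  have h2 : a i % (N : ℤ) = a' i % (N : ℤ) := congrFun h i
  have h3 : (N : ℤ) ∣ a i - a' i := Int.ModEq.dvd (Int.ModEq.symm h2)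
  have h4 : |a i - a' i| < (N : ℤ) := by
    have := h1 i
    exact_mod_cast this
  have h5 := Int.eq_zero_of_abs_lt_dvd h3 h4
  omega

/-- decoding of floors -/
theorem fl_close {d : ℕ} (N : ℕ) (c : ℝ) (hc : 0 < c) (x x' : V d)
    (h : Par.emd N (Par.fl c x) = Par.emd N (Par.fl c x')) (h1 : ‖x - x'‖ / c + 1 < N) :
    ‖x - x'‖ ≤ c := by
  have hx : ∀ i, |x i / c - x' i / c| ≤ ‖x - x'‖ / c := by
    intro i
    rw [← sub_div, abs_div, abs_of_pos hc]
    exact div_le_div_of_nonneg_right (norm_le_pi_norm (x - x') i) hc.le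
  have h2 := eq_of_emd N _ _ h (by
    intro i
    have ha := hx i
    have b1 := Int.floor_le (x i / c)
    have b2 := Int.lt_floor_add_one (x i / c)
    have b3 := Int.floor_le (x' i / c)
    have b4 := Int.lt_floor_add_one (x' i / c)
    rw [abs_le] at ha
    simp only [Par.fl]
    rw [abs_lt]
    constructor
    · linarith [ha.1]
    · linarith [ha.2])
  refine (pi_norm_le_iff_of_nonneg hc.le).2 fun i => ?_
  have h3 : ⌊x i / c⌋ = ⌊x' i / c⌋ := congrFun h2 i
  have h4 := Int.abs_sub_lt_one_of_floor_eq_floor h3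
  rw [← sub_div, abs_div, abs_of_pos hc, div_lt_one hc] at h4
  exact h4.le

theorem tcL_close (hp : p.Ok) (om om' : ℕ → Nz p.d) (i t' : ℕ)
    (hc : p.tcL om i t' = p.tcL om' i t')
    (h1 : ‖(p.run om t').2 - (p.run om' t').2‖ ≤ p.rho (i + 1))
    (h2 : ‖(p.run om t').1 - (p.run om' t').1‖ ≤ p.xi (i + 1)) :
    ‖(p.run om t').2 - (p.run om' t').2‖ ≤ p.rho i ∧
      ‖(p.run om t').1 - (p.run om' t').1‖ ≤ p.xi i := by
  have hL : (1000 : ℝ) ≤ p.L := by exact_mod_cast hp.hL
  have hell : (1 : ℝ) ≤ p.ell := by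
    have : 1 ≤ p.ell := Nat.one_le_pow _ _ (by have := hp.hL; omega)
    exact_mod_cast this
  have hellL : (1 : ℝ) ≤ (p.ell : ℝ) * p.L := by nlinarith
  unfold Par.tcL at hc
  simp only [Prod.mk.injEq, true_and] at hc
  obtain ⟨hv, hx⟩ := hc
  constructor
  · have hr : 0 < p.rho i := pow_pos (by linarith) i
    refine fl_close _ (p.rho i) hr _ _ hv ?_
    have h3 : ‖(p.run om t').2 - (p.run om' t').2‖ / p.rho i ≤ p.ell := by
      rw [div_le_iff₀ hr]
      refine h1.trans (le_of_eq ?_)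
      unfold Par.rho
      rw [pow_succ]; ring
    push_cast
    linarith
  · have hr : 0 < p.xi i := pow_pos (by linarith) i
    refine fl_close _ (p.xi i) hr _ _ hx ?_
    have h3 : ‖(p.run om t').1 - (p.run om' t').1‖ / p.xi i ≤ p.ell * p.L := by
      rw [div_le_iff₀ hr]
      refine h2.trans (le_of_eq ?_)
      unfold Par.xi
      rw [pow_succ]; ring
    push_cast
    linarith

end KDB.I.D10
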