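import Pool.Agent.Helper37.KDB.Extra
import Pool.Agent.Helper37.KDB.St.K1
import Pool.Agent.Helper37.KDB.St.K2
import Pool.Agent.Helper37.KDB.St.K3

/-! Project KDB, piece K4. -/

set_option autoImplicit false

namespace KDB.I.K4

open MeasureTheory KDB
open scoped ENNReal

variable (p : Par)

theorem kr_ind {α : Type} [DecidableEq α] (x0 : α) :
    ∑' x : α, (if x = x0 then (1 : ℝ≥0∞) else 0) ≤ 1 := by
  rw [tsum_ite_eq]

theorem kr_cB : ∑' c : Par.BCode p.d, p.cB c ≤ 1 := by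
  have h2 : ∀ n : ℕ, ∑' y : (Fin p.d → ℤ) × (Fin p.d → ℤ),
      uw (64 * 2 ^ n) y.1 * uw (64 * 2 ^ n) y.2 ≤ 1 := fun n =>
    kr_prod (fun a => uw (64 * 2 ^ n) a) (fun _ b => uw (64 * 2 ^ n) b) (kr_uw _) (fun _ => kr_uw _)
  have h1 : ∑' x : ℕ × ((Fin p.d → ℤ) × (Fin p.d → ℤ)),
      gw x.1 * (uw (64 * 2 ^ x.1) x.2.1 * uw (64 * 2 ^ x.1) x.2.2) ≤ 1 :=
    kr_prod gw (fun n (y : (Fin p.d → ℤ) × (Fin p.d → ℤ)) =>
      uw (64 * 2 ^ n) y.1 * uw (64 * 2 ^ n) y.2) kr_gw h2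
  have h0 := kr_prod (fun l : List (Par.Ent p.d) => p.cList l)
    (fun _ (x : ℕ × ((Fin p.d → ℤ) × (Fin p.d → ℤ))) =>
      gw x.1 * (uw (64 * 2 ^ x.1) x.2.1 * uw (64 * 2 ^ x.1) x.2.2)) (kr_cList p) (fun _ => h1)
  refine le_trans (le_of_eq ?_) h0
  refine tsum_congr fun c => ?_
  unfold Par.cB
  ring

theorem kr_cT (a : ℕ) : ∑' c : Par.TCode p.d, p.cT a c ≤ 1 := by
  classical
  by_cases h0 : a = 0
  · refine le_trans (le_of_eq ?_) (kr_ind (0 : Par.TCode p.d))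
    refine tsum_congr fun c => ?_
    unfold Par.cT
    rw [if_pos h0]
    congr
  · by_cases h1 : a = 1
    · have e3 : ∑' y : (Fin p.d → ℤ) × (Fin p.d → ℤ),
          uw (4 * p.ell) y.1 * uw (4 * p.ell * p.L) y.2 ≤ 1 :=
        kr_prod (fun a => uw (4 * p.ell) a) (fun _ b => uw (4 * p.ell * p.L) b) (kr_uw _)
          (fun _ => kr_uw _)
      have e2 := kr_prod (fun x : Fin p.d → ℤ => if x = 0 then (1 : ℝ≥0∞) else 0)
        (fun _ (y : (Fin p.d → ℤ) × (Fin p.d → ℤ)) => uw (4 * p.ell) y.1 * uw (4 * p.ell * p.L) y.2)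
        (kr_ind 0) (fun _ => e3)
      have e1 := kr_prod (fun x : Fin p.d → ℤ => if x = 0 then (1 : ℝ≥0∞) else 0)
        (fun _ (y : (Fin p.d → ℤ) × ((Fin p.d → ℤ) × (Fin p.d → ℤ))) =>
          (if y.1 = 0 then (1 : ℝ≥0∞) else 0) *
            (uw (4 * p.ell) y.2.1 * uw (4 * p.ell * p.L) y.2.2))
        (kr_ind 0) (fun _ => e2)
      have e0 := kr_prod (fun x : ℕ => if x = 0 then (1 : ℝ≥0∞) else 0)
        (fun _ (y : (Fin p.d → ℤ) × ((Fin p.d → ℤ) × ((Fin p.d → ℤ) × (Fin p.d → ℤ)))) =>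
          (if y.1 = 0 then (1 : ℝ≥0∞) else 0) * ((if y.2.1 = 0 then (1 : ℝ≥0∞) else 0) *
            (uw (4 * p.ell) y.2.2.1 * uw (4 * p.ell * p.L) y.2.2.2)))
        (kr_ind 0) (fun _ => e1)
      refine le_trans (le_of_eq ?_) e0
      refine tsum_congr fun c => ?_
      unfold Par.cT
      rw [if_neg h0, if_pos h1]
      by_cases c1 : c.1 = 0
      · by_cases c2 : c.2.1 = 0
        · by_cases c3 : c.2.2.1 = 0
          · simp [c1, c2, c3]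
          · simp [c1, c2, c3]
        · simp [c1, c2]
      · simp [c1]
    · have e3 : ∀ n : ℕ, ∑' y : (Fin p.d → ℤ) × (Fin p.d → ℤ),
          uw (p.CR * 2 ^ n) y.1 * uw (p.CR * 2 ^ n) y.2 ≤ 1 := fun n =>
        kr_prod (fun a => uw (p.CR * 2 ^ n) a) (fun _ b => uw (p.CR * 2 ^ n) b) (kr_uw _)
          (fun _ => kr_uw _)
      have e2 := fun n : ℕ => kr_prod (fun x : Fin p.d → ℤ => uw 3 x)
        (fun _ (y : (Fin p.d → ℤ) × (Fin p.d → ℤ)) =>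
          uw (p.CR * 2 ^ n) y.1 * uw (p.CR * 2 ^ n) y.2) (kr_uw _) (fun _ => e3 n)
      have e1 := fun n : ℕ => kr_prod (fun x : Fin p.d → ℤ => uw 3 x)
        (fun _ (y : (Fin p.d → ℤ) × ((Fin p.d → ℤ) × (Fin p.d → ℤ))) =>
          uw 3 y.1 * (uw (p.CR * 2 ^ n) y.2.1 * uw (p.CR * 2 ^ n) y.2.2)) (kr_uw _) (fun _ => e2 n)
      have e0 := kr_prod gw
        (fun n (y : (Fin p.d → ℤ) × ((Fin p.d → ℤ) × ((Fin p.d → ℤ) × (Fin p.d → ℤ)))) =>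
          uw 3 y.1 * (uw 3 y.2.1 * (uw (p.CR * 2 ^ n) y.2.2.1 * uw (p.CR * 2 ^ n) y.2.2.2)))
        kr_gw e1
      refine le_trans (le_of_eq ?_) e0
      refine tsum_congr fun c => ?_
      unfold Par.cT
      rw [if_neg h0, if_neg h1]
      ring

/-- KRAFT -/
theorem kraft_cF (hp : p.Ok) (t : ℕ) (c : ℕ → ℕ) :
    ∑' F : Fin p.n → Par.TCode p.d × (Fin (MM * p.L) → Par.BCode p.d), p.cF t c F ≤ 1 := by
  have _ := hp
  exact kr_pi (fun (i : Fin p.n) (x : Par.TCode p.d × (Fin (MM * p.L) → Par.BCode p.d)) =>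
      p.cT (p.tty t c i) x.1 * ∏ k, p.cB (x.2 k))
    (fun i => kr_prod (fun a => p.cT (p.tty t c i) a)
      (fun _ (b : Fin (MM * p.L) → Par.BCode p.d) => ∏ k, p.cB (b k)) (kr_cT p _)
      (fun _ => kr_pi (fun _ b => p.cB b) (fun _ => kr_cB p)))

end KDB.I.K4
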